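import Mathlib

set_option autoImplicit false

/-!
# Cram on general boards: a linear kernel for boards with few unprotected dominoes

A cell with a leaf neighbour (a cell whose only neighbour it is) is protected: whoever covers it
may use the leaf.  A cell all of whose neighbours are protected can be deleted from the board
without changing the Grundy value.
-/

namespace Pool.Agent.Results.MP_ac89f4_lc.ProtectedKernel

/-- a unit cell of the square grid -/
abbrev Cell := ℤ × ℤ

/-- two cells share an edge -/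
def Adj (c d : Cell) : Prop :=
  (c.1 = d.1 ∧ (c.2 = d.2 + 1 ∨ d.2 = c.2 + 1)) ∨ (c.2 = d.2 ∧ (c.1 = d.1 + 1 ∨ d.1 = c.1 + 1))

instance : DecidableRel Adj := fun _ _ => by unfold Adj; infer_instance

/-- the player to move wins Cram on the board `B`: some domino placement leaves a board on which
the player to move does not win -/
def FirstWins (B : Finset Cell) : Prop :=
  ∃ c, ∃ _ : c ∈ B, ∃ d, ∃ _ : d ∈ B, Adj c d ∧ ¬ FirstWins (B \ {c, d})
termination_by B.card
decreasing_by
  exact Finset.card_lt_card (Finset.ssubset_iff_subset_ne.mpr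
    ⟨Finset.sdiff_subset, fun h => by
      have h1 : c ∈ B \ {c, d} := by rw [h]; assumption
      simp at h1⟩)

/-- the Grundy value of the board `B`: the least natural number that is not the Grundy value of
the board left by a domino placement -/
noncomputable def grundy (B : Finset Cell) : ℕ :=
  sInf {v : ℕ | ∀ c, ∀ _ : c ∈ B, ∀ d, ∀ _ : d ∈ B, Adj c d → grundy (B \ {c, d}) ≠ v}
termination_by B.card
decreasing_by
  exact Finset.card_lt_card (Finset.ssubset_iff_subset_ne.mpr
    ⟨Finset.sdiff_subset, fun h => by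
      have h1 : c ∈ B \ {c, d} := by rw [h]; assumption
      simp at h1⟩)

/-- the cells of `B` that lie in a domino contained in `B` and disjoint from `X` -/
def free (B X : Finset Cell) : Finset Cell :=
  B.filter fun c => c ∉ X ∧ ∃ d ∈ B, d ∉ X ∧ Adj c d

/-- the cells of `X` that are adjacent to a cell of `free B X` -/
def touch (B X : Finset Cell) : Finset Cell :=
  X.filter fun x => ∃ c ∈ free B X, Adj x c

/-- the core: the cells of `free B X`, the cells of `X` adjacent to them, and the leaves of the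
latter -/
def core (B X : Finset Cell) (leaf : Cell → Cell) : Finset Cell :=
  free B X ∪ touch B X ∪ (touch B X).image leaf

theorem adj_symm {c d : Cell} (h : Adj c d) : Adj d c := by
  unfold Adj at *
  omega

theorem adj_ne {c d : Cell} (h : Adj c d) : c ≠ d := by
  rintro rfl
  unfold Adj at h
  omega

theorem card_lt {B : Finset Cell} {c d : Cell} (hc : c ∈ B) : (B \ {c, d}).card < B.card :=
  Finset.card_lt_card (Finset.ssubset_iff_subset_ne.mpr
    ⟨Finset.sdiff_subset, fun h => by
      have h1 : c ∈ B \ {c, d} := by rw [h]; exact hc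
      simp at h1⟩)

/-- the set whose infimum is the Grundy value -/
def avoid (B : Finset Cell) : Set ℕ :=
  {v : ℕ | ∀ c, ∀ _ : c ∈ B, ∀ d, ∀ _ : d ∈ B, Adj c d → grundy (B \ {c, d}) ≠ v}

theorem grundy_def (B : Finset Cell) : grundy B = sInf (avoid B) := by
  rw [grundy]
  rfl

theorem avoid_nonempty (B : Finset Cell) : (avoid B).Nonempty := by
  let s : Finset ℕ := (B ×ˢ B).image fun p => grundy (B \ {p.1, p.2})
  obtain ⟨v, hv⟩ := Infinite.exists_notMem_finset s
  refine ⟨v, fun c hc d hd _ h => hv ?_⟩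
  exact Finset.mem_image.mpr ⟨(c, d), Finset.mem_product.mpr ⟨hc, hd⟩, h⟩

theorem grundy_ne {B : Finset Cell} {c d : Cell} (hc : c ∈ B) (hd : d ∈ B) (h : Adj c d) :
    grundy (B \ {c, d}) ≠ grundy B := by
  have h1 : grundy B ∈ avoid B := by
    rw [grundy_def]
    exact Nat.sInf_mem (avoid_nonempty B)
  exact h1 c hc d hd h

theorem grundy_lt {B : Finset Cell} {u : ℕ} (h : u < grundy B) :
    ∃ c ∈ B, ∃ d ∈ B, Adj c d ∧ grundy (B \ {c, d}) = u := by
  rw [grundy_def] at h
  have h1 := Nat.notMem_of_lt_sInf h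
  unfold avoid at h1
  simp only [Set.mem_setOf_eq, not_forall, not_not] at h1
  obtain ⟨c, hc, d, hd, h2, h3⟩ := h1
  exact ⟨c, hc, d, hd, h2, h3⟩

theorem grundy_eq {B : Finset Cell} {v : ℕ}
    (h1 : ∀ c ∈ B, ∀ d ∈ B, Adj c d → grundy (B \ {c, d}) ≠ v)
    (h2 : ∀ u < v, ∃ c ∈ B, ∃ d ∈ B, Adj c d ∧ grundy (B \ {c, d}) = u) : grundy B = v := by
  rcases lt_trichotomy (grundy B) v with h | h | h
  · obtain ⟨c, hc, d, hd, h3, h4⟩ := h2 _ h
    exact absurd h4 (grundy_ne hc hd h3)
  · exact h
  · obtain ⟨c, hc, d, hd, h3, h4⟩ := grundy_lt h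
    exact absurd h4 (h1 c hc d hd h3)

theorem firstWins_iff (B : Finset Cell) : FirstWins B ↔ grundy B ≠ 0 := by
  induction hn : B.card using Nat.strong_induction_on generalizing B with
  | _ n ih =>
    subst hn
    rw [FirstWins]
    constructor
    · rintro ⟨c, hc, d, hd, h1, h2⟩ h0
      rw [ih _ (card_lt hc) _ rfl, not_not] at h2
      exact grundy_ne hc hd h1 (by rw [h2, h0])
    · intro h0
      obtain ⟨c, hc, d, hd, h1, h2⟩ := grundy_lt (Nat.pos_of_ne_zero h0)
      exact ⟨c, hc, d, hd, h1, by rw [ih _ (card_lt hc) _ rfl, not_not]; exact h2⟩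

/-- a cell all of whose neighbours have a leaf other than it can be deleted -/
theorem grundy_erase (B : Finset Cell) (y : Cell)
    (h : ∀ x ∈ B, Adj x y → ∃ l ∈ B, l ≠ y ∧ Adj x l ∧ ∀ c ∈ B, Adj c l → c = x) :
    grundy B = grundy (B.erase y) := by
  induction hn : B.card using Nat.strong_induction_on generalizing B y with
  | _ n ih =>
    subst hn
    by_cases hy : y ∈ B
    swap
    · rw [Finset.erase_eq_of_notMem hy]
    -- the effect of a placement not using `y`
    have key : ∀ c ∈ B, ∀ d ∈ B, Adj c d → c ≠ y → d ≠ y →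
        grundy (B \ {c, d}) = grundy ((B.erase y) \ {c, d}) := by
      intro c hc d hd hcd hcy hdy
      have h3 : (B.erase y) \ {c, d} = (B \ {c, d}).erase y := by
        ext z
        simp only [Finset.mem_sdiff, Finset.mem_erase, Finset.mem_insert, Finset.mem_singleton]
        tauto
      rw [h3]
      refine ih _ (card_lt hc) _ y ?_ rfl
      intro x hx hxy
      rw [Finset.mem_sdiff] at hx
      obtain ⟨l, hl, hly, hxl, hl2⟩ := h x hx.1 hxy
      refine ⟨l, ?_, hly, hxl, fun e he => hl2 e (Finset.mem_sdiff.mp he).1⟩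
      rw [Finset.mem_sdiff]
      refine ⟨hl, fun hlcd => hx.2 ?_⟩
      rw [Finset.mem_insert, Finset.mem_singleton] at hlcd ⊢
      rcases hlcd with rfl | rfl
      · exact Or.inr (hl2 d hd (adj_symm hcd)).symm
      · exact Or.inl (hl2 c hc hcd).symm
    -- the effect of a placement using `y`
    have key2 : ∀ x ∈ B, Adj x y → grundy (B \ {x, y}) ≠ grundy (B.erase y) := by
      intro x hx hxy
      obtain ⟨l, hl, hly, hxl, hl2⟩ := h x hx hxy
      have h4 : grundy (B \ {x, y}) = grundy ((B \ {x, y}).erase l) := by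
        refine ih _ (card_lt hx) _ l ?_ rfl
        intro z hz hzl
        rw [Finset.mem_sdiff] at hz
        exfalso
        exact hz.2 (by rw [hl2 z hz.1 hzl]; simp)
      have h5 : (B \ {x, y}).erase l = (B.erase y) \ {x, l} := by
        ext z
        simp only [Finset.mem_sdiff, Finset.mem_erase, Finset.mem_insert, Finset.mem_singleton]
        tauto
      rw [h4, h5]
      exact grundy_ne (Finset.mem_erase.mpr ⟨adj_ne hxy, hx⟩)
        (Finset.mem_erase.mpr ⟨hly, hl⟩) hxl
    refine grundy_eq ?_ ?_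
    · intro c hc d hd hcd
      by_cases hcy : c = y
      · subst hcy
        rw [Finset.pair_comm]
        exact key2 d hd (adj_symm hcd)
      · by_cases hdy : d = y
        · subst hdy
          exact key2 c hc hcd
        · rw [key c hc d hd hcd hcy hdy]
          exact grundy_ne (Finset.mem_erase.mpr ⟨hcy, hc⟩) (Finset.mem_erase.mpr ⟨hdy, hd⟩) hcd
    · intro u hu
      obtain ⟨c, hc, d, hd, hcd, h6⟩ := grundy_lt hu
      rw [Finset.mem_erase] at hc hd
      exact ⟨c, hc.2, d, hd.2, hcd, by rw [key c hc.2 d hd.2 hcd hc.1 hd.1]; exact h6⟩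

/-- deleting a set of such cells -/
theorem grundy_sdiff (B S : Finset Cell)
    (h : ∀ y ∈ S, ∀ x ∈ B, Adj x y → ∃ l ∈ B, l ∉ S ∧ Adj x l ∧ ∀ c ∈ B, Adj c l → c = x) :
    grundy B = grundy (B \ S) := by
  induction S using Finset.induction_on with
  | empty => simp
  | insert a S ha ih =>
    have h1 : grundy B = grundy (B \ S) := by
      refine ih fun y hy x hx hxy => ?_
      obtain ⟨l, hl, hl2, hl3⟩ := h y (Finset.mem_insert_of_mem hy) x hx hxy
      exact ⟨l, hl, fun h2 => hl2 (Finset.mem_insert_of_mem h2), hl3⟩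
    have h2 : B \ insert a S = (B \ S).erase a := by
      ext z
      simp only [Finset.mem_sdiff, Finset.mem_erase, Finset.mem_insert]
      tauto
    rw [h1, h2]
    refine grundy_erase _ a fun x hx hxa => ?_
    obtain ⟨l, hl, hl2, hl3, hl4⟩ := h a (Finset.mem_insert_self _ _) x (Finset.mem_sdiff.mp hx).1 hxa
    rw [Finset.mem_insert, not_or] at hl2
    exact ⟨l, Finset.mem_sdiff.mpr ⟨hl, hl2.2⟩, hl2.1, hl3,
      fun c hc => hl4 c (Finset.mem_sdiff.mp hc).1⟩

/-- deleting an isolated domino -/
theorem grundy_domino (B : Finset Cell) (x l : Cell) (hx : x ∈ B) (hl : l ∈ B) (hxl : Adj x l)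
    (h1 : ∀ c ∈ B, Adj c x → c = l) (h2 : ∀ c ∈ B, Adj c l → c = x) :
    grundy B = grundy (B \ {x, l}) ^^^ 1 := by
  induction hn : B.card using Nat.strong_induction_on generalizing B with
  | _ n ih =>
    subst hn
    have key : ∀ c ∈ B \ {x, l}, ∀ d ∈ B \ {x, l}, Adj c d →
        grundy (B \ {c, d}) = grundy ((B \ {x, l}) \ {c, d}) ^^^ 1 := by
      intro c hc d hd hcd
      rw [Finset.mem_sdiff, Finset.mem_insert, Finset.mem_singleton, not_or] at hc hd
      have h3 : (B \ {x, l}) \ {c, d} = (B \ {c, d}) \ {x, l} := by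
        ext z
        simp only [Finset.mem_sdiff, Finset.mem_insert, Finset.mem_singleton]
        tauto
      rw [h3]
      refine ih _ (card_lt hc.1) _ ?_ ?_ ?_ ?_ rfl
      · rw [Finset.mem_sdiff, Finset.mem_insert, Finset.mem_singleton, not_or]
        exact ⟨hx, fun h => hc.2.1 h.symm, fun h => hd.2.1 h.symm⟩
      · rw [Finset.mem_sdiff, Finset.mem_insert, Finset.mem_singleton, not_or]
        exact ⟨hl, fun h => hc.2.2 h.symm, fun h => hd.2.2 h.symm⟩
      · exact fun e he => h1 e (Finset.mem_sdiff.mp he).1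
      · exact fun e he => h2 e (Finset.mem_sdiff.mp he).1
    have xor11 : ∀ a : ℕ, a ^^^ 1 ^^^ 1 = a := fun a => by rw [Nat.xor_assoc]; simp
    refine grundy_eq ?_ ?_
    · intro c hc d hd hcd
      by_cases hcx : c = x
      · subst hcx
        have : d = l := h1 d hd (adj_symm hcd)
        subst this
        intro h
        have h4 := congrArg (fun a => a ^^^ grundy (B \ {c, d})) h
        simp only [Nat.xor_self] at h4
        rw [Nat.xor_comm, ← Nat.xor_assoc, Nat.xor_self, Nat.zero_xor] at h4
        omega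
      by_cases hcl : c = l
      · subst hcl
        have : d = x := h2 d hd (adj_symm hcd)
        subst this
        rw [Finset.pair_comm]
        intro h
        have h4 := congrArg (fun a => a ^^^ grundy (B \ {d, c})) h
        simp only [Nat.xor_self] at h4
        rw [Nat.xor_comm, ← Nat.xor_assoc, Nat.xor_self, Nat.zero_xor] at h4
        omega
      have hdx : d ≠ x := fun h => by subst h; exact hcl (h1 c hc hcd)
      have hdl : d ≠ l := fun h => by subst h; exact hcx (h2 c hc hcd)
      have hc' : c ∈ B \ {x, l} := by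
        rw [Finset.mem_sdiff, Finset.mem_insert, Finset.mem_singleton, not_or]
        exact ⟨hc, hcx, hcl⟩
      have hd' : d ∈ B \ {x, l} := by
        rw [Finset.mem_sdiff, Finset.mem_insert, Finset.mem_singleton, not_or]
        exact ⟨hd, hdx, hdl⟩
      rw [key c hc' d hd' hcd]
      intro h
      have h4 := congrArg (fun a => a ^^^ 1) h
      simp only [xor11] at h4
      exact grundy_ne hc' hd' hcd h4
    · intro u hu
      rcases Nat.lt_xor_cases hu with h3 | h3
      · obtain ⟨c, hc, d, hd, hcd, h4⟩ := grundy_lt h3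
        refine ⟨c, (Finset.mem_sdiff.mp hc).1, d, (Finset.mem_sdiff.mp hd).1, hcd, ?_⟩
        rw [key c hc d hd hcd, h4, xor11]
      · refine ⟨x, hx, l, hl, hxl, ?_⟩
        have h4 : u ^^^ grundy (B \ {x, l}) = 0 := by omega
        exact (Nat.xor_eq_zero_iff.mp h4).symm

/-- deleting a set of isolated dominoes -/
theorem grundy_dominoes (A Y : Finset Cell) (leaf : Cell → Cell)
    (hY : ∀ x ∈ Y, x ∉ A ∧ leaf x ∉ A ∧ leaf x ∉ Y)
    (hinj : ∀ x ∈ Y, ∀ x' ∈ Y, leaf x = leaf x' → x = x')
    (hadj : ∀ x ∈ Y, Adj x (leaf x))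
    (h1 : ∀ x ∈ Y, ∀ c ∈ A ∪ Y ∪ Y.image leaf, Adj c x → c = leaf x)
    (h2 : ∀ x ∈ Y, ∀ c ∈ A ∪ Y ∪ Y.image leaf, Adj c (leaf x) → c = x) :
    grundy (A ∪ Y ∪ Y.image leaf) = grundy A ^^^ (Y.card % 2) := by
  induction Y using Finset.induction_on with
  | empty => simp
  | insert a Y ha ih =>
    have hsub : A ∪ Y ∪ Y.image leaf ⊆ A ∪ insert a Y ∪ (insert a Y).image leaf := by
      intro z hz
      simp only [Finset.mem_union, Finset.mem_insert, Finset.mem_image] at hz ⊢
      rcases hz with (hz | hz) | ⟨w, hw, rfl⟩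
      · exact Or.inl (Or.inl hz)
      · exact Or.inl (Or.inr (Or.inr hz))
      · exact Or.inr ⟨w, Or.inr hw, rfl⟩
    have ih' := ih (fun x hx => by
        obtain ⟨p, q, r⟩ := hY x (Finset.mem_insert_of_mem hx)
        exact ⟨p, q, fun h => r (Finset.mem_insert_of_mem h)⟩)
      (fun x hx x' hx' => hinj x (Finset.mem_insert_of_mem hx) x' (Finset.mem_insert_of_mem hx'))
      (fun x hx => hadj x (Finset.mem_insert_of_mem hx))
      (fun x hx c hc => h1 x (Finset.mem_insert_of_mem hx) c (hsub hc))
      (fun x hx c hc => h2 x (Finset.mem_insert_of_mem hx) c (hsub hc))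
    have ha' := Finset.mem_insert_self a Y
    obtain ⟨hA1, hA2, hA3⟩ := hY a ha'
    have hEq : (A ∪ insert a Y ∪ (insert a Y).image leaf) \ {a, leaf a} = A ∪ Y ∪ Y.image leaf := by
      ext z
      simp only [Finset.mem_union, Finset.mem_insert, Finset.mem_image, Finset.mem_sdiff,
        Finset.mem_singleton, not_or]
      constructor
      · rintro ⟨(hz | (hz | hz)) | ⟨w, (hw | hw), rfl⟩, hz2, hz3⟩
        · exact Or.inl (Or.inl hz)
        · exact absurd hz hz2
        · exact Or.inl (Or.inr hz)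
        · subst hw
          exact absurd rfl hz3
        · exact Or.inr ⟨w, hw, rfl⟩
      · rintro ((hz | hz) | ⟨w, hw, rfl⟩)
        · exact ⟨Or.inl (Or.inl hz), fun h => hA1 (h ▸ hz), fun h => hA2 (h ▸ hz)⟩
        · refine ⟨Or.inl (Or.inr (Or.inr hz)), fun h => ha (h ▸ hz), fun h => ?_⟩
          exact hA3 (h ▸ Finset.mem_insert_of_mem hz)
        · refine ⟨Or.inr ⟨w, Or.inr hw, rfl⟩, fun h => ?_, fun h => ?_⟩
          · exact (hY w (Finset.mem_insert_of_mem hw)).2.2 (by rw [h]; exact ha')
          · exact ha (hinj w (Finset.mem_insert_of_mem hw) a ha' h ▸ hw)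
    have hmem1 : a ∈ A ∪ insert a Y ∪ (insert a Y).image leaf := by simp
    have hmem2 : leaf a ∈ A ∪ insert a Y ∪ (insert a Y).image leaf := by simp
    rw [grundy_domino _ a (leaf a) hmem1 hmem2 (hadj a ha') (h1 a ha') (h2 a ha'), hEq, ih',
      Finset.card_insert_of_notMem ha, Nat.xor_assoc]
    congr 1
    rcases Nat.mod_two_eq_zero_or_one Y.card with h | h
    · rw [h, show (Y.card + 1) % 2 = 1 by omega]; rfl
    · rw [h, show (Y.card + 1) % 2 = 0 by omega]; rfl

/-- the four neighbours of a cell -/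
def nbrs (c : Cell) : Finset Cell := {(c.1 + 1, c.2), (c.1 - 1, c.2), (c.1, c.2 + 1), (c.1, c.2 - 1)}

theorem mem_nbrs {c d : Cell} : d ∈ nbrs c ↔ Adj d c := by
  obtain ⟨a, b⟩ := c
  obtain ⟨a', b'⟩ := d
  simp only [nbrs, Adj, Finset.mem_insert, Finset.mem_singleton, Prod.mk.injEq]
  omega

theorem card_nbrs (c : Cell) : (nbrs c).card ≤ 4 := by
  unfold nbrs
  exact Finset.card_le_four

theorem card_touch (B X : Finset Cell) : (touch B X).card ≤ 3 * (free B X).card := by
  have h1 : touch B X ⊆ (free B X).biUnion fun c => X.filter fun x => Adj x c := by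
    intro x hx
    rw [touch, Finset.mem_filter] at hx
    obtain ⟨hx1, c, hc, hxc⟩ := hx
    exact Finset.mem_biUnion.mpr ⟨c, hc, Finset.mem_filter.mpr ⟨hx1, hxc⟩⟩
  refine (Finset.card_le_card h1).trans ?_
  rw [mul_comm]
  refine Finset.card_biUnion_le_card_mul _ _ _ fun c hc => ?_
  rw [free, Finset.mem_filter] at hc
  obtain ⟨-, -, d, -, hdX, hcd⟩ := hc
  have h2 : (X.filter fun x => Adj x c) ⊆ (nbrs c).erase d := by
    intro x hx
    rw [Finset.mem_filter] at hx
    rw [Finset.mem_erase, mem_nbrs]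
    exact ⟨fun h => hdX (h ▸ hx.1), hx.2⟩
  refine (Finset.card_le_card h2).trans ?_
  rw [Finset.card_erase_of_mem (mem_nbrs.mpr (adj_symm hcd))]
  have := card_nbrs c
  omega

/-- **Kernel theorem.**  Let `X` be a set of pairwise non-adjacent cells of a board `B`, each of
them with a leaf `leaf x`, that is, a neighbour in `B` whose only neighbour in `B` is `x`.  Let
`free B X` be the set of the cells of `B` lying in a domino of `B` disjoint from `X`.  The core has
at most `7 * |free B X|` cells, the Grundy value of `B` is that of the core, changed by `1` if the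
number of the cells of `X` not adjacent to a free cell is odd, and the first player wins Cram on
`B` if and only if the Grundy value of the core differs from the parity of that number. -/
theorem result (B X : Finset Cell) (leaf : Cell → Cell) (hX : X ⊆ B)
    (hind : ∀ x ∈ X, ∀ x' ∈ X, ¬ Adj x x')
    (hleaf : ∀ x ∈ X, leaf x ∈ B ∧ Adj x (leaf x) ∧ ∀ c ∈ B, Adj c (leaf x) → c = x) :
    core B X leaf ⊆ B ∧ (core B X leaf).card ≤ 7 * (free B X).card ∧
    grundy B = grundy (core B X leaf) ^^^ ((X \ touch B X).card % 2) ∧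
    (FirstWins B ↔ grundy (core B X leaf) ≠ (X \ touch B X).card % 2) := by
  have hfree : ∀ c, c ∈ free B X ↔ c ∈ B ∧ c ∉ X ∧ ∃ d ∈ B, d ∉ X ∧ Adj c d := fun c => by
    rw [free, Finset.mem_filter]
  have htouch : ∀ c, c ∈ touch B X ↔ c ∈ X ∧ ∃ d ∈ free B X, Adj c d := fun c => by
    rw [touch, Finset.mem_filter]
  have hinj : ∀ x ∈ X, ∀ x' ∈ X, leaf x = leaf x' → x = x' := by
    intro x hx x' hx' h
    refine (hleaf x' hx').2.2 x (hX hx) ?_
    rw [← h]
    exact (hleaf x hx).2.1
  have hlX : ∀ x ∈ X, leaf x ∉ X := fun x hx h => hind x hx _ h (hleaf x hx).2.1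
  have hlF : ∀ x ∈ X, leaf x ∉ free B X := by
    intro x hx h
    rw [hfree] at h
    obtain ⟨-, -, d, hd, hdX, h3⟩ := h
    rw [(hleaf x hx).2.2 d hd (adj_symm h3)] at hdX
    exact hdX hx
  -- the set that is deleted first
  have hcoreB : core B X leaf ⊆ B := by
    intro z hz
    rw [core, Finset.mem_union, Finset.mem_union, Finset.mem_image] at hz
    rcases hz with (hz | hz) | ⟨w, hw, rfl⟩
    · exact ((hfree z).mp hz).1
    · exact hX ((htouch z).mp hz).1
    · exact (hleaf w ((htouch w).mp hw).1).1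
  set S : Finset Cell := B \ (free B X ∪ X ∪ X.image leaf) with hS
  have hB1 : B \ S = free B X ∪ X ∪ X.image leaf := by
    ext z
    rw [hS]
    simp only [Finset.mem_sdiff, Finset.mem_union, Finset.mem_image]
    constructor
    · rintro ⟨hz, hz2⟩
      by_contra h
      exact hz2 ⟨hz, h⟩
    · intro h
      refine ⟨?_, fun h2 => h2.2 h⟩
      rcases h with (h | h) | ⟨w, hw, rfl⟩
      · exact ((hfree z).mp h).1
      · exact hX h
      · exact (hleaf w hw).1
  have hstep1 : grundy B = grundy (B \ S) := by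
    refine grundy_sdiff B S fun y hy x hx hxy => ?_
    rw [hS, Finset.mem_sdiff, Finset.mem_union, Finset.mem_union, not_or, not_or] at hy
    obtain ⟨hyB, ⟨hyF, hyX⟩, hyL⟩ := hy
    have hxX : x ∈ X := by
      by_contra hxX
      exact hyF ((hfree y).mpr ⟨hyB, hyX, x, hx, hxX, adj_symm hxy⟩)
    refine ⟨leaf x, (hleaf x hxX).1, ?_, (hleaf x hxX).2.1, (hleaf x hxX).2.2⟩
    rw [hS, Finset.mem_sdiff, not_and, not_not]
    intro _
    rw [Finset.mem_union]
    exact Or.inr (Finset.mem_image_of_mem _ hxX)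
  have hsplit : free B X ∪ X ∪ X.image leaf
      = core B X leaf ∪ (X \ touch B X) ∪ (X \ touch B X).image leaf := by
    ext z
    rw [core]
    simp only [Finset.mem_union, Finset.mem_image, Finset.mem_sdiff]
    constructor
    · rintro ((h | h) | ⟨w, hw, rfl⟩)
      · exact Or.inl (Or.inl (Or.inl (Or.inl h)))
      · by_cases ht : z ∈ touch B X
        · exact Or.inl (Or.inl (Or.inl (Or.inr ht)))
        · exact Or.inl (Or.inr ⟨h, ht⟩)
      · by_cases ht : w ∈ touch B X
        · exact Or.inl (Or.inl (Or.inr ⟨w, ht, rfl⟩))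
        · exact Or.inr ⟨w, ⟨hw, ht⟩, rfl⟩
    · rintro ((((h | h) | ⟨w, hw, rfl⟩) | h) | ⟨w, hw, rfl⟩)
      · exact Or.inl (Or.inl h)
      · exact Or.inl (Or.inr ((htouch z).mp h).1)
      · exact Or.inr ⟨w, ((htouch w).mp hw).1, rfl⟩
      · exact Or.inl (Or.inr h.1)
      · exact Or.inr ⟨w, hw.1, rfl⟩
  have hstep2 : grundy (core B X leaf ∪ (X \ touch B X) ∪ (X \ touch B X).image leaf)
      = grundy (core B X leaf) ^^^ ((X \ touch B X).card % 2) := by
    have hmemB : ∀ c ∈ core B X leaf ∪ (X \ touch B X) ∪ (X \ touch B X).image leaf, c ∈ B := by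
      intro c hc
      rw [← hsplit, ← hB1] at hc
      exact (Finset.mem_sdiff.mp hc).1
    refine grundy_dominoes _ _ leaf ?_ ?_ ?_ ?_ ?_
    · intro x hx
      rw [Finset.mem_sdiff] at hx
      refine ⟨?_, ?_, fun h => hlX x hx.1 (Finset.mem_sdiff.mp h).1⟩
      · intro h
        rw [core, Finset.mem_union, Finset.mem_union, Finset.mem_image] at h
        rcases h with (h | h) | ⟨w, hw, h⟩
        · exact ((hfree x).mp h).2.1 hx.1
        · exact hx.2 h
        · exact hlX w ((htouch w).mp hw).1 (h ▸ hx.1)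
      · intro h
        rw [core, Finset.mem_union, Finset.mem_union, Finset.mem_image] at h
        rcases h with (h | h) | ⟨w, hw, h⟩
        · exact hlF x hx.1 h
        · exact hlX x hx.1 ((htouch _).mp h).1
        · exact hx.2 (hinj w ((htouch w).mp hw).1 x hx.1 h ▸ hw)
    · exact fun x hx x' hx' =>
        hinj x (Finset.mem_sdiff.mp hx).1 x' (Finset.mem_sdiff.mp hx').1
    · exact fun x hx => (hleaf x (Finset.mem_sdiff.mp hx).1).2.1
    · intro x hx c hc hcx
      rw [Finset.mem_sdiff] at hx
      rw [← hsplit, Finset.mem_union, Finset.mem_union, Finset.mem_image] at hc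
      rcases hc with (h | h) | ⟨w, hw, rfl⟩
      · exact absurd ((htouch x).mpr ⟨hx.1, c, h, adj_symm hcx⟩) hx.2
      · exact absurd hcx (hind c h x hx.1)
      · rw [(hleaf w hw).2.2 x (hX hx.1) (adj_symm hcx)]
    · intro x hx c hc hcx
      exact (hleaf x (Finset.mem_sdiff.mp hx).1).2.2 c (hmemB c hc) hcx
  have hmain : grundy B = grundy (core B X leaf) ^^^ ((X \ touch B X).card % 2) := by
    rw [hstep1, hB1, hsplit, hstep2]
  refine ⟨hcoreB, ?_, hmain, ?_⟩
  · rw [core]
    have h1 := Finset.card_union_le (free B X ∪ touch B X) ((touch B X).image leaf)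
    have h2 := Finset.card_union_le (free B X) (touch B X)
    have h3 : ((touch B X).image leaf).card ≤ (touch B X).card := Finset.card_image_le
    have h4 := card_touch B X
    omega
  · rw [firstWins_iff, hmain, ne_eq, Nat.xor_eq_zero_iff]

end Pool.Agent.Results.MP_ac89f4_lc.ProtectedKernel
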